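import Pool.Agent.Q209.CC.Smyth

/-!
# MP_8dcd4d_gt, Q1 (negated form)

There is a co-consonant `T0` space whose Smyth powerspace is not co-consonant.

Let `X` be a discrete set `ℕ × ω₁` together with one point, the neighbourhoods of which have
countable complement, and `Y` the set of the functions from `ℕ` to `ω₁`, where a neighbourhood of `y`
contains all `z` with `z i ≤ y i` for all `i < n`, for some `n`. Both are co-consonant, but their
sum is not. The space consists of `X`, `Y` and one more isolated point, an open set that meets `Y`
contains `X`.
-/

set_option autoImplicit false

namespace Pool.Agent.Results.MP_8dcd4d_gt.NotInherited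

open Q209.CC

theorem result : ∃ (X : Type) (_ : TopologicalSpace X),
    T0Space X ∧ CoConsonant X ∧ ¬ CoConsonant (SmythPowerspace X) :=
  ⟨Z, inferInstance, t0_Z, coConsonant_Z, not_coConsonant_smyth⟩

end Pool.Agent.Results.MP_8dcd4d_gt.NotInherited
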